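import Pool.Agent.H38.CC.Defs

set_option autoImplicit false

/-!
# The asymptotic estimate for the parameters
-/

open Filter Topology

namespace Pool.Agent.H38.CC

namespace Asymp

theorem large (C : ℝ) (hC : 1 ≤ C) : ∀ᶠ L : ℝ in atTop,
    100000 ≤ L ∧ C * L ^ 3 < Real.exp (0.0001 * L) := by
  have h1 : Tendsto (fun L : ℝ => 0.0001 * L) atTop atTop :=
    tendsto_id.const_mul_atTop (by norm_num)
  have h2 := (Real.tendsto_exp_div_pow_atTop 3).comp h1
  filter_upwards [h2.eventually_gt_atTop (C / 0.0001 ^ 3), eventually_ge_atTop 100000] with L hL hL2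
  refine ⟨hL2, ?_⟩
  have h3 : (0 : ℝ) < (0.0001 * L) ^ 3 := by positivity
  have h4 : C / 0.0001 ^ 3 < Real.exp (0.0001 * L) / (0.0001 * L) ^ 3 := hL
  rw [lt_div_iff₀ h3] at h4
  have h5 : C / 0.0001 ^ 3 * (0.0001 * L) ^ 3 = C * L ^ 3 := by
    rw [mul_pow]
    field_simp
  rw [h5] at h4
  exact h4

theorem fin {C L s c : ℝ} (hC : 0 ≤ C) (hL : 0 < L) (hs : s ≤ (1 - c) * L) (hc : 0.0001 ≤ c)
    (h : C * L ^ 3 < Real.exp (0.0001 * L)) : C * Real.exp s < Real.exp L / L ^ 3 := by
  rw [lt_div_iff₀ (by positivity)]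
  have h1 : Real.exp s ≤ Real.exp ((1 - 0.0001) * L) := by
    refine Real.exp_le_exp.2 (hs.trans ?_)
    exact mul_le_mul_of_nonneg_right (by linarith) hL.le
  have h2 : Real.exp L = Real.exp (0.0001 * L) * Real.exp ((1 - 0.0001) * L) := by
    rw [← Real.exp_add]
    congr 1
    ring
  calc C * Real.exp s * L ^ 3 = C * L ^ 3 * Real.exp s := by ring
    _ ≤ C * L ^ 3 * Real.exp ((1 - 0.0001) * L) :=
        mul_le_mul_of_nonneg_left h1 (by positivity)
    _ < Real.exp (0.0001 * L) * Real.exp ((1 - 0.0001) * L) :=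
        mul_lt_mul_of_pos_right h (Real.exp_pos _)
    _ = Real.exp L := h2.symm

end Asymp

open Asymp

theorem asymp : TAsymp := by
  intro C hC
  have hlog : Tendsto (fun n : ℕ => Real.log n) atTop atTop :=
    Real.tendsto_log_atTop.comp tendsto_natCast_atTop_atTop
  obtain ⟨n0, hn0⟩ := eventually_atTop.1 ((hlog.eventually (large C hC)).and
    (eventually_ge_atTop 1))
  refine ⟨n0, fun n hn ω t hω ht ht2 => ?_⟩
  obtain ⟨⟨hL1, hL2⟩, hn1⟩ := hn0 n hn
  set L := Real.log n with hL
  have hn' : (n : ℝ) = Real.exp L := by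
    rw [hL, Real.exp_log]
    exact_mod_cast hn1
  have hL0 : 0 < L := by linarith
  rw [hn']
  set w : ℝ := (ω : ℝ) with hw
  have hw1 : 1 ≤ w := by
    rw [hw]
    exact_mod_cast hω
  set x : ℝ := L ^ 2 / (1.3019 * w) with hx
  have hx0 : 0 < x := by positivity
  have hwx : w * x = L ^ 2 / 1.3019 := by
    rw [hx]
    field_simp
  have hx1 : 1 < x := by
    by_contra h
    have h1 : ⌈x⌉₊ ≤ 1 := Nat.ceil_le.2 (by push_cast; linarith)
    omega
  set T : ℝ := (t : ℝ) with hT
  have hT1 : T < x + 1 := by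
    rw [hT, ht]
    exact Nat.ceil_lt_add_one hx0.le
  have hT2 : x ≤ T := by
    rw [hT, ht]
    exact Nat.le_ceil x
  have hT0 : 0 < T := by linarith
  constructor
  · intro h1 h2
    have h1' : w + 1 ≤ 100 * T := by
      rw [hw, hT]
      exact_mod_cast h1
    have h2' : T ≤ 100 * (w + 1) := by
      rw [hw, hT]
      exact_mod_cast h2
    have e1 : x ≤ 13 * L := by
      have h3 : x ≤ 200 * w := by linarith
      have h4 : x ^ 2 ≤ 200 * (w * x) := by nlinarith
      rw [hwx] at h4
      have h5 : x ^ 2 ≤ (13 * L) ^ 2 := by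
        refine h4.trans ?_
        have : 200 * (L ^ 2 / 1.3019) = 200 / 1.3019 * L ^ 2 := by ring
        rw [this, mul_pow]
        exact mul_le_mul_of_nonneg_right (by norm_num) (sq_nonneg L)
      exact le_of_sq_le_sq h5 (by positivity)
    have e2 : w + 1 ≤ 18 * L := by
      have h3 : w + 1 ≤ 200 * x := by linarith
      have h4 : (w + 1) ^ 2 ≤ 400 * (w * x) := by nlinarith
      rw [hwx] at h4
      have h5 : (w + 1) ^ 2 ≤ (18 * L) ^ 2 := by
        refine h4.trans ?_
        have : 400 * (L ^ 2 / 1.3019) = 400 / 1.3019 * L ^ 2 := by ring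
        rw [this, mul_pow]
        exact mul_le_mul_of_nonneg_right (by norm_num) (sq_nonneg L)
      exact le_of_sq_le_sq h5 (by positivity)
    have e3 : 1.3008 * ((w + 1) * T) ≤ (0.9999 * L) ^ 2 := by
      have h3 : (w + 1) * T ≤ L ^ 2 / 1.3019 + 31 * L := by
        have h4 : (w + 1) * T ≤ (w + 1) * (x + 1) :=
          mul_le_mul_of_nonneg_left hT1.le (by linarith)
        have h5 : (w + 1) * (x + 1) = w * x + x + (w + 1) := by ring
        rw [h5, hwx] at h4
        linarith
      have h6 : L ^ 2 / 1.3019 * 1.3008 ≤ 0.99916 * L ^ 2 := by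
        have : L ^ 2 / 1.3019 * 1.3008 = 1.3008 / 1.3019 * L ^ 2 := by ring
        rw [this]
        exact mul_le_mul_of_nonneg_right (by norm_num) (sq_nonneg L)
      nlinarith
    have e4 : Real.sqrt (1.3008 * ((w + 1) * T)) ≤ (1 - 0.0001) * L := by
      refine Real.sqrt_le_iff.2 ⟨by positivity, ?_⟩
      refine e3.trans (le_of_eq ?_)
      norm_num
    exact fin (by linarith) hL0 e4 le_rfl hL2
  · have e1 : (w + 1) * T ≤ 4 * (L ^ 2 / 1.3019) := by
      have h3 : (w + 1) * T ≤ (2 * w) * (2 * x) :=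
        mul_le_mul (by linarith) (by linarith) hT0.le (by linarith)
      have h4 : (2 * w) * (2 * x) = 4 * (w * x) := by ring
      rw [h4, hwx] at h3
      exact h3
    have e2 : 0.562 * Real.sqrt ((w + 1) * T) ≤ (1 - 0.0148) * L := by
      have h3 : Real.sqrt ((w + 1) * T) ≤ 0.9852 / 0.562 * L := by
        refine Real.sqrt_le_iff.2 ⟨by positivity, e1.trans ?_⟩
        have : 4 * (L ^ 2 / 1.3019) = 4 / 1.3019 * L ^ 2 := by ring
        rw [this, mul_pow]
        exact mul_le_mul_of_nonneg_right (by norm_num) (sq_nonneg L)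
      have h4 := mul_le_mul_of_nonneg_left h3 (by norm_num : (0 : ℝ) ≤ 0.562)
      refine h4.trans (le_of_eq ?_)
      ring
    have h5 : (1 : ℝ) * L ^ 3 < Real.exp (0.0001 * L) := by
      refine lt_of_le_of_lt ?_ hL2
      exact mul_le_mul_of_nonneg_right hC (by positivity)
    have h6 := fin zero_le_one hL0 e2 (by norm_num) h5
    rw [one_mul] at h6
    exact h6

end Pool.Agent.H38.CC
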