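import Mathlib
import Pool.Graph.R_seed8.H110R2.Main
import Pool.Graph.R_seed8.H110R2.Check
import Pool.Graph.R_seed8.TH428.RM.Lines

set_option autoImplicit false

/-!
# Statements for the bound on the ratio of chromatic number and clique number
-/

namespace Pool.Agent.H38.CC

open H110R2

/-- The lines of the two-colour bound cover all ratios between 1/100 and 100. -/
def TLines : Prop := ∀ k l : ℝ, 0 < k → k ≤ 100 * l → l ≤ k →
  ∃ L ∈ (Pool.Agent.TH428.RM.Old ++ Pool.Agent.TH428.RM.newL).map (rl 1000000000),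
    0 ≤ lv L k l ∧ (lv L k l) ^ 2 ≤ 1.3008 * (k * l)

/-- Erdős–Szekeres for very unbalanced pairs. -/
def TES : Prop := ∀ k l : ℕ, 1 ≤ k → 1 ≤ l → (100 * l < k ∨ 100 * k < l) →
  ∀ (V : Type) [DecidableEq V] (G : SimpleGraph V) (Z : Finset V),
    NoCl G k Z → NoCl Gᶜ l Z → (Z.card : ℝ) ≤ Real.exp (0.562 * Real.sqrt ((k : ℝ) * l))

/-- Greedy colouring with independent sets of size `t`. -/
def TGreedy : Prop := ∀ (V : Type) [Fintype V] (G : SimpleGraph V) (t : ℕ) (m : ℝ), 1 ≤ t → 0 ≤ m →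
  (∀ S : Finset V, m ≤ (S.card : ℝ) → ∃ I ⊆ S, Gᶜ.IsNClique t I) →
  (G.chromaticNumber.toNat : ℝ) ≤ (Fintype.card V : ℝ) / t + m

/-- The asymptotic estimate. -/
def TAsymp : Prop := ∀ C : ℝ, 1 ≤ C → ∃ n0 : ℕ, ∀ n : ℕ, n0 ≤ n → ∀ ω t : ℕ, 1 ≤ ω →
  t = ⌈(Real.log n) ^ 2 / (1.3019 * ω)⌉₊ → 2 ≤ t →
  (ω + 1 ≤ 100 * t → t ≤ 100 * (ω + 1) →
      C * Real.exp (Real.sqrt (1.3008 * (((ω : ℝ) + 1) * t))) < n / (Real.log n) ^ 3) ∧
  Real.exp (0.562 * Real.sqrt (((ω : ℝ) + 1) * t)) < n / (Real.log n) ^ 3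

end Pool.Agent.H38.CC
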