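import Pool.Agent.H38.CC.Defs

/-! # Project CC, task ES (helper728): the Erdős–Szekeres bound for very unbalanced pairs -/

set_option autoImplicit false

namespace Pool.Agent.H38.CC

open H110R2

lemma es_log101 : Real.log 101 ≤ 4.62 := by
  rw [Real.log_le_iff_le_exp (by norm_num)]
  have h1 : (2.71828 : ℝ) ≤ Real.exp 1 := by
    have := Real.exp_one_gt_d9
    linarith
  have h2 : (1.85 : ℝ) ≤ Real.exp 0.62 := by
    have := Real.sum_le_exp_of_nonneg (x := (0.62 : ℝ)) (by norm_num) 4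
    simp only [Finset.sum_range_succ, Finset.sum_range_zero, Nat.factorial] at this
    norm_num at this
    linarith
  have h3 : Real.exp 4.62 = Real.exp 1 ^ 4 * Real.exp 0.62 := by
    rw [← Real.exp_nat_mul, ← Real.exp_add]
    norm_num
  rw [h3]
  have h4 : (2.71828 : ℝ) ^ 4 ≤ Real.exp 1 ^ 4 := pow_le_pow_left₀ (by norm_num) h1 4
  calc (101 : ℝ) ≤ 2.71828 ^ 4 * 1.85 := by norm_num
    _ ≤ Real.exp 1 ^ 4 * Real.exp 0.62 := by
        apply mul_le_mul h4 h2 (by norm_num) (by positivity)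

lemma es_log {Y : ℝ} (hY : 100 ≤ Y) : 1 + Real.log (1 + Y) ≤ 0.562 * Real.sqrt Y := by
  obtain ⟨s, hs⟩ : ∃ s, s = Real.sqrt Y / 10 := ⟨_, rfl⟩
  have h1 : (10 : ℝ) ≤ Real.sqrt Y := by
    apply Real.le_sqrt_of_sq_le
    linarith
  have hs1 : 1 ≤ s := by
    rw [hs]
    linarith
  have hs0 : 0 < s := by linarith
  have hsY : Real.sqrt Y = 10 * s := by rw [hs]; ring
  have hY2 : Y = 100 * s ^ 2 := by
    have := Real.mul_self_sqrt (show 0 ≤ Y by linarith)
    rw [hsY] at this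
    linarith
  have h2 : Real.log (1 + Y) ≤ Real.log 101 + 2 * Real.log s := by
    have h3 : Real.log 101 + 2 * Real.log s = Real.log (101 * s ^ 2) := by
      rw [Real.log_mul (by norm_num) (by positivity), Real.log_pow]
      norm_num
    rw [h3]
    apply Real.log_le_log (by linarith)
    rw [hY2]
    nlinarith
  have h4 : Real.log s ≤ s - 1 := Real.log_le_sub_one_of_pos hs0
  have h5 := es_log101
  rw [hsY]
  nlinarith

lemma es_one {k l : ℕ} (hk : 1 ≤ k) (hl : 1 ≤ l) (hkl : 100 * l < k) {V : Type} [DecidableEq V]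
    (G : SimpleGraph V) (Z : Finset V) (h1 : NoCl G k Z) (h2 : NoCl Gᶜ l Z) :
    (Z.card : ℝ) ≤ Real.exp (0.562 * Real.sqrt ((k : ℝ) * l)) := by
  have hk0 : (0 : ℝ) < k := by exact_mod_cast hk
  have hl0 : (0 : ℝ) < l := by exact_mod_cast hl
  have hx : (0 : ℝ) < k / (k + l) := by positivity
  have hy : (0 : ℝ) < l / (k + l) := by positivity
  have hxy : (k : ℝ) / (k + l) + l / (k + l) ≤ 1 := by
    rw [← add_div, div_self (by positivity)]
  have h := es_bound G hx hy hxy Z.card Z le_rfl k l h1 h2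
  obtain ⟨Y, hYd⟩ : ∃ Y : ℝ, Y = k / l := ⟨_, rfl⟩
  have hY : 100 ≤ Y := by
    rw [hYd, le_div_iff₀ hl0]
    exact_mod_cast hkl.le
  have hkY : (k : ℝ) = l * Y := by
    rw [hYd]
    field_simp
  have e1 : (Real.exp l)⁻¹ ≤ ((k : ℝ) / (k + l)) ^ k := by
    have h3 : (1 + (l : ℝ) / k) ≤ Real.exp (l / k) := by
      have := Real.add_one_le_exp ((l : ℝ) / k)
      linarith
    have h4 : (1 + (l : ℝ) / k) ^ k ≤ Real.exp l := by
      calc (1 + (l : ℝ) / k) ^ k ≤ Real.exp (l / k) ^ k := pow_le_pow_left₀ (by positivity) h3 k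
        _ = Real.exp l := by
            rw [← Real.exp_nat_mul]
            congr 1
            field_simp
    have h5 : (k : ℝ) / (k + l) = (1 + (l : ℝ) / k)⁻¹ := by
      field_simp
    rw [h5, inv_pow]
    exact inv_anti₀ (by positivity) h4
  have e2 : ((l : ℝ) / (k + l)) ^ l = (Real.exp (l * Real.log (1 + Y)))⁻¹ := by
    have h5 : (l : ℝ) / (k + l) = (1 + Y)⁻¹ := by
      have hY1 : (0 : ℝ) < 1 + Y := by linarith
      rw [inv_eq_one_div, div_eq_div_iff (by positivity) hY1.ne', hkY]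
      ring
    rw [h5, inv_pow, Real.exp_nat_mul, Real.exp_log (by linarith)]
  have e3 : Real.sqrt ((k : ℝ) * l) = l * Real.sqrt Y := by
    have : (k : ℝ) * l = l ^ 2 * Y := by rw [hkY]; ring
    rw [this, Real.sqrt_mul (by positivity), Real.sqrt_sq hl0.le]
  have e4 : (l : ℝ) + l * Real.log (1 + Y) ≤ 0.562 * Real.sqrt ((k : ℝ) * l) := by
    rw [e3]
    have := mul_le_mul_of_nonneg_left (es_log hY) hl0.le
    linarith
  refine le_trans ?_ (Real.exp_le_exp.2 e4)
  rw [Real.exp_add]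
  have h6 : ((Z.card : ℝ) + 1) * (Real.exp l)⁻¹ * (Real.exp (l * Real.log (1 + Y)))⁻¹ ≤ 1 := by
    refine le_trans ?_ h
    rw [← e2]
    exact mul_le_mul_of_nonneg_right (mul_le_mul_of_nonneg_left e1
      (add_nonneg (Nat.cast_nonneg _) zero_le_one)) (pow_nonneg hy.le _)
  rw [mul_assoc, ← mul_inv, ← div_eq_mul_inv, div_le_one (by positivity)] at h6
  linarith

theorem es : TES := by
  intro k l hk hl hkl V _ G Z h1 h2
  rcases hkl with h | h
  · exact es_one hk hl h G Z h1 h2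
  · rw [mul_comm (k : ℝ) l]
    apply es_one hl hk h Gᶜ Z h2
    rwa [compl_compl]

end Pool.Agent.H38.CC
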