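import Pool.Agent.H38.CC.Defs

/-!
# CC: greedy colouring with independent sets of a given size
-/

set_option autoImplicit false

namespace Pool.Agent.H38.CC

namespace GreedyL

open Classical in
theorem main {V : Type} (G : SimpleGraph V) (t : ℕ) (m : ℝ) (ht : 1 ≤ t) (_ : 0 ≤ m)
    (h : ∀ S : Finset V, m ≤ (S.card : ℝ) → ∃ I ⊆ S, Gᶜ.IsNClique t I) (k : ℕ) :
    ∀ S : Finset V, S.card = k → ∃ N : ℕ, (N : ℝ) ≤ (S.card : ℝ) / t + m ∧
      ∃ c : V → ℕ, (∀ v ∈ S, c v < N) ∧ ∀ u ∈ S, ∀ v ∈ S, G.Adj u v → c u ≠ c v := by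
  have ht0 : (0 : ℝ) < t := by exact_mod_cast ht
  induction k using Nat.strong_induction_on with
  | _ k ih =>
    intro S hS
    rcases le_or_gt m (S.card : ℝ) with h1 | h1
    · obtain ⟨I, hIS, hI⟩ := h S h1
      have hIc : I.card = t := hI.card_eq
      have h2 : (S \ I).card = S.card - t := by
        rw [Finset.card_sdiff_of_subset hIS, hIc]
      have h3 : t ≤ S.card := hIc ▸ Finset.card_le_card hIS
      obtain ⟨N, hN, c, hc1, hc2⟩ := ih (S \ I).card (by omega) (S \ I) rfl
      refine ⟨N + 1, ?_, fun v => if v ∈ I then N else c v, ?_, ?_⟩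
      · rw [h2, Nat.cast_sub h3, sub_div, div_self ht0.ne'] at hN
        push_cast
        linarith
      · intro v hv
        by_cases hvI : v ∈ I
        · simp only [hvI, if_true]; omega
        · simp only [hvI, if_false]
          have := hc1 v (Finset.mem_sdiff.2 ⟨hv, hvI⟩)
          omega
      · intro u hu v hv huv
        by_cases huI : u ∈ I <;> by_cases hvI : v ∈ I
        · exfalso
          have h5 := hI.isClique (Finset.mem_coe.2 huI) (Finset.mem_coe.2 hvI) huv.ne
          rw [SimpleGraph.compl_adj] at h5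
          exact h5.2 huv
        · simp only [huI, hvI, if_true, if_false]
          have := hc1 v (Finset.mem_sdiff.2 ⟨hv, hvI⟩)
          omega
        · simp only [huI, hvI, if_true, if_false]
          have := hc1 u (Finset.mem_sdiff.2 ⟨hu, huI⟩)
          omega
        · simp only [huI, hvI, if_false]
          exact hc2 u (Finset.mem_sdiff.2 ⟨hu, huI⟩) v (Finset.mem_sdiff.2 ⟨hv, hvI⟩) huv
    · refine ⟨S.card, ?_, fun v => if hv : v ∈ S then (S.equivFin ⟨v, hv⟩ : ℕ) else 0, ?_, ?_⟩
      · have : (0 : ℝ) ≤ (S.card : ℝ) / t := by positivity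
        linarith
      · intro v hv
        simp only [hv, dif_pos]
        exact (S.equivFin ⟨v, hv⟩).2
      · intro u hu v hv huv
        simp only [hu, hv, dif_pos]
        intro h5
        have h6 := S.equivFin.injective (Fin.ext h5)
        exact huv.ne (congrArg Subtype.val h6)

end GreedyL

theorem greedy : TGreedy := by
  intro V _ G t m ht hm h
  obtain ⟨N, hN, c, hc1, hc2⟩ := GreedyL.main G t m ht hm h (Finset.univ : Finset V).card
    Finset.univ rfl
  have hcol : G.Colorable N := by
    refine ⟨SimpleGraph.Coloring.mk (fun v => (⟨c v, hc1 v (Finset.mem_univ v)⟩ : Fin N)) ?_⟩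
    intro u v huv h5
    exact hc2 u (Finset.mem_univ u) v (Finset.mem_univ v) huv (congrArg Fin.val h5)
  have h6 : G.chromaticNumber.toNat ≤ N := by
    have h7 := ENat.toNat_le_toNat hcol.chromaticNumber_le (ENat.natCast_ne_top N)
    rwa [ENat.toNat_natCast] at h7
  have h8 : (G.chromaticNumber.toNat : ℝ) ≤ N := by exact_mod_cast h6
  rw [Finset.card_univ] at hN
  linarith

end Pool.Agent.H38.CC
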