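import Pool.Agent.H38.CC.Defs

set_option autoImplicit false

namespace Pool.Agent.H38.CC

open H110R2

lemma piece {a s p q k l : ℝ} (ha : 0 ≤ a) (hs : 0 ≤ s) (hk : 0 < k) (hpq : p < q)
    (hp : (a + s * p) ^ 2 ≤ 1.3008 * p) (hq : (a + s * q) ^ 2 ≤ 1.3008 * q)
    (h1 : p * k ≤ l) (h2 : l ≤ q * k) (hp0 : 0 ≤ p) :
    0 ≤ a * k + s * l ∧ (a * k + s * l) ^ 2 ≤ 1.3008 * (k * l) := by
  have hl : 0 ≤ l := le_trans (mul_nonneg hp0 hk.le) h1
  refine ⟨by positivity, ?_⟩
  set x := l / k with hx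
  have hxl : l = x * k := by rw [hx]; field_simp
  have h1' : p ≤ x := by rw [hx, le_div_iff₀ hk]; exact h1
  have h2' : x ≤ q := by rw [hx, div_le_iff₀ hk]; exact h2
  have key : (a + s * x) ^ 2 ≤ 1.3008 * x := by
    have e : (q - p) * ((a + s * x) ^ 2 - 1.3008 * x) =
        (q - x) * ((a + s * p) ^ 2 - 1.3008 * p) + (x - p) * ((a + s * q) ^ 2 - 1.3008 * q)
          - s ^ 2 * ((x - p) * (q - x)) * (q - p) := by ring
    have e1 : (q - x) * ((a + s * p) ^ 2 - 1.3008 * p) ≤ 0 :=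
      mul_nonpos_of_nonneg_of_nonpos (by linarith) (by linarith)
    have e2 : (x - p) * ((a + s * q) ^ 2 - 1.3008 * q) ≤ 0 :=
      mul_nonpos_of_nonneg_of_nonpos (by linarith) (by linarith)
    have e3 : 0 ≤ s ^ 2 * ((x - p) * (q - x)) * (q - p) := by
      have := mul_nonneg (sub_nonneg.mpr h1') (sub_nonneg.mpr h2')
      have h3 : 0 ≤ q - p := by linarith
      positivity
    have e4 : (q - p) * ((a + s * x) ^ 2 - 1.3008 * x) ≤ 0 := by rw [e]; linarith
    by_contra hcon
    push Not at hcon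
    have : 0 < (q - p) * ((a + s * x) ^ 2 - 1.3008 * x) :=
      mul_pos (by linarith) (by linarith)
    linarith
  have e5 : (a * k + s * l) ^ 2 = (a + s * x) ^ 2 * k ^ 2 := by rw [hxl]; ring
  have e6 : 1.3008 * (k * l) = 1.3008 * x * k ^ 2 := by rw [hxl]; ring
  rw [e5, e6]
  exact mul_le_mul_of_nonneg_right key (by positivity)

lemma piece' {A S : ℕ} {p q k l : ℝ} (hk : 0 < k) (hpq : p < q)
    (hmem : (A, S) ∈ Pool.Agent.TH428.RM.Old ++ Pool.Agent.TH428.RM.newL)
    (hp : ((A : ℝ) / 1000000000 + (S : ℝ) / 1000000000 * p) ^ 2 ≤ 1.3008 * p)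
    (hq : ((A : ℝ) / 1000000000 + (S : ℝ) / 1000000000 * q) ^ 2 ≤ 1.3008 * q)
    (h1 : p * k ≤ l) (h2 : l ≤ q * k) (hp0 : 0 ≤ p) :
    ∃ L ∈ (Pool.Agent.TH428.RM.Old ++ Pool.Agent.TH428.RM.newL).map (rl 1000000000),
      0 ≤ lv L k l ∧ (lv L k l) ^ 2 ≤ 1.3008 * (k * l) := by
  refine ⟨rl 1000000000 (A, S), List.mem_map_of_mem hmem, ?_⟩
  have e : lv (rl 1000000000 (A, S)) k l = (A : ℝ) / 1000000000 * k + (S : ℝ) / 1000000000 * l := by
    simp [lv, rl]
  rw [e]
  exact piece (by positivity) (by positivity) hk hpq hp hq h1 h2 hp0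

theorem lines : TLines := by
  intro k l hk h1 h2
  by_cases c0 : l ≤ (18529 / 100000 : ℝ) * k
  · exact piece' (A := 91175559) (S := 2157455000) (p := (1 / 100 : ℝ)) (q := (18529 / 100000 : ℝ)) hk (by norm_num)
      (by decide +kernel) (by norm_num) (by norm_num) (by linarith) c0 (by norm_num)
  by_cases c1 : l ≤ (11577 / 25000 : ℝ) * k
  · exact piece' (A := 299811705) (S := 1028578659) (p := (18529 / 100000 : ℝ)) (q := (11577 / 25000 : ℝ)) hk (by norm_num)
      (by decide +kernel) (by norm_num) (by norm_num) (not_le.mp c0).le c1 (by norm_num)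
  by_cases c2 : l ≤ (7287 / 12500 : ℝ) * k
  · exact piece' (A := 405808216) (S := 797659475) (p := (11577 / 25000 : ℝ)) (q := (7287 / 12500 : ℝ)) hk (by norm_num)
      (by decide +kernel) (by norm_num) (by norm_num) (not_le.mp c1).le c2 (by norm_num)
  by_cases c3 : l ≤ (62527 / 100000 : ℝ) * k
  · exact piece' (A := 438463483) (S := 741113557) (p := (7287 / 12500 : ℝ)) (q := (62527 / 100000 : ℝ)) hk (by norm_num)
      (by decide +kernel) (by norm_num) (by norm_num) (not_le.mp c2).le c3 (by norm_num)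
  by_cases c4 : l ≤ (64457 / 100000 : ℝ) * k
  · exact piece' (A := 447120136) (S := 726922323) (p := (62527 / 100000 : ℝ)) (q := (64457 / 100000 : ℝ)) hk (by norm_num)
      (by decide +kernel) (by norm_num) (by norm_num) (not_le.mp c3).le c4 (by norm_num)
  by_cases c5 : l ≤ (72389 / 100000 : ℝ) * k
  · exact piece' (A := 470431201) (S := 690640510) (p := (64457 / 100000 : ℝ)) (q := (72389 / 100000 : ℝ)) hk (by norm_num)
      (by decide +kernel) (by norm_num) (by norm_num) (not_le.mp c4).le c5 (by norm_num)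
  by_cases c6 : l ≤ (83211 / 100000 : ℝ) * k
  · exact piece' (A := 496913510) (S := 653128479) (p := (72389 / 100000 : ℝ)) (q := (83211 / 100000 : ℝ)) hk (by norm_num)
      (by decide +kernel) (by norm_num) (by norm_num) (not_le.mp c5).le c6 (by norm_num)
  exact piece' (A := 545707651) (S := 594088849) (p := (83211 / 100000 : ℝ)) (q := (1 : ℝ)) hk (by norm_num)
    (by decide +kernel) (by norm_num) (by norm_num) (not_le.mp c6).le (by linarith) (by norm_num)

end Pool.Agent.H38.CC
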