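import Pool.Agent.H38.CC.Lines
import Pool.Graph.R_seed8.TH428.RM.Final
import Pool.Prelude.Def_F_9bd5e397

set_option autoImplicit false

namespace Pool.Agent.H38.CC

open H110R2 Filter

lemma noCl_succ {n : ℕ} (G : SimpleGraph (Fin n)) (S : Finset (Fin n)) :
    NoCl G (G.cliqueNum + 1) S := by
  intro T _ hT
  have h := hT.isClique.card_le_cliqueNum
  rw [hT.card_eq] at h
  omega

lemma one_le_cliqueNum {n : ℕ} (hn : 0 < n) (G : SimpleGraph (Fin n)) : 1 ≤ G.cliqueNum := by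
  have h : G.IsClique (({⟨0, hn⟩} : Finset (Fin n)) : Set (Fin n)) := by simp
  have := h.card_le_cliqueNum
  simpa using this

lemma chrom_le {n : ℕ} (G : SimpleGraph (Fin n)) : (G.chromaticNumber.toNat : ℝ) ≤ n := by
  have h : G.chromaticNumber ≤ n := by
    have := G.colorable_of_fintype
    simpa using this.chromaticNumber_le
  have h2 : G.chromaticNumber.toNat ≤ n := ENat.toNat_le_of_le_natCast h
  exact_mod_cast h2

lemma small_set {C : ℝ} (hC : 1 ≤ C)
    (hb : ∀ k l : ℕ, BdAt ((Pool.Agent.TH428.RM.Old ++ Pool.Agent.TH428.RM.newL).map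
      (rl 1000000000)) C k l) (hES : TES) {V : Type} [DecidableEq V] (G : SimpleGraph V)
    (Z : Finset V) (k t : ℕ) (hk : 1 ≤ k) (ht : 1 ≤ t) (h1 : NoCl G k Z) (h2 : NoCl Gᶜ t Z)
    (B : ℝ)
    (hB1 : k ≤ 100 * t → t ≤ 100 * k →
      C * Real.exp (Real.sqrt (1.3008 * ((k : ℝ) * t))) < B)
    (hB2 : Real.exp (0.562 * Real.sqrt ((k : ℝ) * t)) < B) : (Z.card : ℝ) < B := by
  by_cases hc : 100 * t < k ∨ 100 * k < t
  · exact lt_of_le_of_lt (hES k t hk ht hc V G Z h1 h2) hB2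
  · push Not at hc
    refine lt_of_le_of_lt ?_ (hB1 hc.1 hc.2)
    have hk0 : (0 : ℝ) < k := by exact_mod_cast hk
    have ht0 : (0 : ℝ) < t := by exact_mod_cast ht
    have hc1 : (k : ℝ) ≤ 100 * t := by exact_mod_cast hc.1
    have hc2 : (t : ℝ) ≤ 100 * k := by exact_mod_cast hc.2
    rcases le_total (t : ℝ) (k : ℝ) with h | h
    · obtain ⟨L, hL, hL0, hL1⟩ := lines k t hk0 hc1 h
      have h3 := (hb k t V G Z h1 h2 L hL).1
      refine h3.trans (mul_le_mul_of_nonneg_left (Real.exp_le_exp.mpr ?_) (by linarith))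
      exact Real.le_sqrt_of_sq_le hL1
    · obtain ⟨L, hL, hL0, hL1⟩ := lines t k ht0 hc2 h
      have h3 := (hb k t V G Z h1 h2 L hL).2
      refine h3.trans (mul_le_mul_of_nonneg_left (Real.exp_le_exp.mpr ?_) (by linarith))
      refine Real.le_sqrt_of_sq_le ?_
      rw [mul_comm (k : ℝ) (t : ℝ)]
      exact hL1

theorem main_of (hES : TES) (hG : TGreedy) (hA : TAsymp) : ∀ᶠ n : ℕ in atTop,
    Naffefad5.maxChromaticCliqueRatio n ≤ 2.71 * ((n : ℝ) / Real.logb 2 n ^ 2) := by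
  obtain ⟨C, hC, hb⟩ := Pool.Agent.TH428.RM.bound
  obtain ⟨n0, hn0⟩ := hA C hC
  have hlog : ∀ᶠ n : ℕ in atTop, (8000 : ℝ) ≤ Real.log n :=
    (Real.tendsto_log_atTop.comp tendsto_natCast_atTop_atTop).eventually_ge_atTop 8000
  filter_upwards [hlog, eventually_ge_atTop n0, eventually_ge_atTop 1] with n hn1 hn2 hn3
  have hn : (0 : ℝ) < n := by exact_mod_cast hn3
  set Λ := Real.log n with hΛ
  have hΛ0 : 0 < Λ := by linarith
  have hl2 : 0.6931471803 < Real.log 2 := Real.log_two_gt_d9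
  have hrhs : 1.302025 * ((n : ℝ) / Λ ^ 2) ≤ 2.71 * ((n : ℝ) / Real.logb 2 n ^ 2) := by
    have e : (n : ℝ) / Real.logb 2 n ^ 2 = (Real.log 2) ^ 2 * ((n : ℝ) / Λ ^ 2) := by
      rw [Real.logb, ← hΛ]
      have : Real.log 2 ≠ 0 := by positivity
      field_simp
    rw [e, ← mul_assoc]
    refine mul_le_mul_of_nonneg_right ?_ (by positivity)
    nlinarith
  unfold Naffefad5.maxChromaticCliqueRatio
  refine ciSup_le fun G => ?_
  refine le_trans ?_ hrhs
  have hω := one_le_cliqueNum (by omega) G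
  set ω := G.cliqueNum with hωdef
  have hω0 : (1 : ℝ) ≤ ω := by exact_mod_cast hω
  set t := ⌈Λ ^ 2 / (1.3019 * (ω : ℝ))⌉₊ with ht
  have hxpos : 0 < Λ ^ 2 / (1.3019 * (ω : ℝ)) := by positivity
  have ht1 : 1 ≤ t := by
    rw [ht]
    exact Nat.one_le_iff_ne_zero.mpr (Nat.pos_iff_ne_zero.mp (Nat.ceil_pos.mpr hxpos))
  have htx : Λ ^ 2 / (1.3019 * (ω : ℝ)) ≤ t := Nat.le_ceil _
  have ht0 : (0 : ℝ) < t := by exact_mod_cast ht1
  have hω00 : (0 : ℝ) < ω := by linarith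
  have hkey : Λ ^ 2 ≤ 1.3019 * (ω * t) := by
    rw [div_le_iff₀ (by positivity)] at htx
    linarith
  rcases Nat.lt_or_ge 1 t with h2t | h2t
  · have hAn := hn0 n hn2 ω t hω ht h2t
    have hχ := hG (Fin n) G t ((n : ℝ) / Λ ^ 3) ht1 (by positivity) (by
      intro S hS
      by_contra hcon
      push Not at hcon
      have h1 : NoCl G (ω + 1) S := noCl_succ G S
      have h2 : NoCl Gᶜ t S := fun T hT hT2 => hcon T hT hT2
      have := small_set hC hb hES G S (ω + 1) t (by omega) ht1 h1 h2 ((n : ℝ) / Λ ^ 3)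
        (by
          intro ha hb
          have := hAn.1 ha hb
          push_cast
          exact this)
        (by
          have := hAn.2
          push_cast
          exact this)
      linarith)
    rw [Fintype.card_fin] at hχ
    rw [div_le_iff₀ hω00]
    refine hχ.trans ?_
    have e1 : (n : ℝ) / t ≤ 1.3019 * ((n : ℝ) / Λ ^ 2) * ω := by
      rw [div_le_iff₀ ht0]
      have : 1.3019 * ((n : ℝ) / Λ ^ 2) * ω * t = (n : ℝ) * ((1.3019 * (ω * t)) / Λ ^ 2) := by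
        field_simp
      rw [this]
      have h3 : 1 ≤ (1.3019 * ((ω : ℝ) * t)) / Λ ^ 2 := by
        rw [le_div_iff₀ (by positivity)]
        linarith
      nlinarith
    have e2 : (n : ℝ) / Λ ^ 3 ≤ 0.000125 * ((n : ℝ) / Λ ^ 2) * ω := by
      have h3 : (n : ℝ) / Λ ^ 3 = (n : ℝ) / Λ ^ 2 * (1 / Λ) := by field_simp
      have h4 : 1 / Λ ≤ 0.000125 := by
        rw [div_le_iff₀ hΛ0]
        linarith
      rw [h3]
      have h5 : 0 ≤ (n : ℝ) / Λ ^ 2 := by positivity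
      calc (n : ℝ) / Λ ^ 2 * (1 / Λ) ≤ (n : ℝ) / Λ ^ 2 * 0.000125 :=
            mul_le_mul_of_nonneg_left h4 h5
        _ = 0.000125 * ((n : ℝ) / Λ ^ 2) * 1 := by ring
        _ ≤ 0.000125 * ((n : ℝ) / Λ ^ 2) * ω :=
            mul_le_mul_of_nonneg_left hω0 (by positivity)
    calc (n : ℝ) / t + (n : ℝ) / Λ ^ 3 ≤ 1.3019 * ((n : ℝ) / Λ ^ 2) * ω
          + 0.000125 * ((n : ℝ) / Λ ^ 2) * ω := add_le_add e1 e2
      _ = 1.302025 * ((n : ℝ) / Λ ^ 2) * ω := by ring
  · have ht' : (t : ℝ) = 1 := by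
      have : t = 1 := by omega
      exact_mod_cast this
    rw [ht', mul_one] at hkey
    rw [div_le_iff₀ hω00]
    refine (chrom_le G).trans ?_
    have : 1.302025 * ((n : ℝ) / Λ ^ 2) * ω = (n : ℝ) * ((1.302025 * ω) / Λ ^ 2) := by
      field_simp
    rw [this]
    have h3 : 1 ≤ (1.302025 * (ω : ℝ)) / Λ ^ 2 := by
      rw [le_div_iff₀ (by positivity)]
      linarith
    nlinarith

end Pool.Agent.H38.CC
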